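import Pool.Agent.Work.MP_6c3bcd_an.Bd.B03

universe u v

namespace Pool.Agent.Work.MP_6c3bcd_an.Asp

open Set Topology

/-- A system of countable supports in the dual of an Asplund space. -/
theorem asplund_sys {𝕜 : Type u} [RCLike 𝕜] {X : Type v} [NormedAddCommGroup X] [NormedSpace 𝕜 X]
    (hX : IsAsplund 𝕜 X) :
    ∃ 𝓘 : Set (Submodule 𝕜 (StrongDual 𝕜 X) × Set (StrongDual 𝕜 X)), Sys Set.univ 𝓘 := by
  obtain ⟨G, hG⟩ := prfGen 𝕜 X (prfFrag 𝕜 X hX)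
  obtain ⟨C, hC⟩ := prfLin 𝕜 X G hG
  obtain ⟨M, hM, Q, hQ⟩ := prfProj 𝕜 X C hC
  exact prfInd prfClos prfJump 𝕜 X (StrongDual 𝕜 X) M Q hM hQ

/-- The extension theorem for Asplund spaces. -/
theorem asplund_extension {𝕜 : Type u} [RCLike 𝕜] {X : Type v} [NormedAddCommGroup X]
    [NormedSpace 𝕜 X] (hX : IsAsplund 𝕜 X) {Y : Submodule 𝕜 (StrongDual 𝕜 X)} {Φ : Y → Set X}
    (hΦ : IsProjectionalGenerator Y Φ) :
    ∃ Ψ : hull Y → Set X, IsProjectionalGenerator (hull Y) Ψ ∧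
      ∀ y : Y, Ψ ⟨y, le_hull Y y.2⟩ = Φ y := by
  obtain ⟨𝓘, h1, h2⟩ := asplund_sys hX
  exact prfSupp 𝕜 X Y Φ hΦ 𝓘 ⟨h1, fun z _ => h2 z (Set.mem_univ z)⟩

end Pool.Agent.Work.MP_6c3bcd_an.Asp
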